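import Mathlib
import Pool.Agent.Lib.helper6.Dist

set_option autoImplicit false

namespace Pool.Agent.Results.MP_33b0ad_co.Grid

open SimpleGraph

/-- One pebbling move. -/
def Move {V : Type} [DecidableEq V] (G : SimpleGraph V) (P Q : V → ℕ) : Prop :=
  ∃ u v, G.Adj u v ∧ 2 ≤ P u ∧ Q = fun w => if w = u then P w - 2 else if w = v then P w + 1 else P w

abbrev V := Fin 5 × Fin 6

def d (u v : V) : ℕ := (u.1 - v.1 + (v.1 - u.1)) + (u.2 - v.2 + (v.2 - u.2))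

theorem adj : ∀ u v : V, (pathGraph 5 □ pathGraph 6).Adj u v ↔ d u v = 1 := by
  simp only [boxProd_adj, pathGraph_adj]
  decide +kernel

def run : List (V × V × ℕ) → (V → ℕ) → V → Prop
  | [], P, y => 1 ≤ P y
  | (u, v, k) :: l, P, y => d u v = 1 ∧ 2 * k ≤ P u ∧
      run l (fun w => if w = u then P w - 2 * k else if w = v then P w + k else P w) y

instance dec : ∀ l P y, Decidable (run l P y)
  | [], _, _ => inferInstanceAs (Decidable (_ ≤ _))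
  | (_, _, _) :: l, _, y => @instDecidableAnd _ _ _ (@instDecidableAnd _ _ _ (dec l _ y))

theorem bulk (u v : V) (h : d u v = 1) (P : V → ℕ) (k : ℕ) (hk : 2 * k ≤ P u) :
    Relation.ReflTransGen (Move (pathGraph 5 □ pathGraph 6)) P
      fun w => if w = u then P w - 2 * k else if w = v then P w + k else P w := by
  induction k with
  | zero => simpa using Relation.ReflTransGen.refl
  | succ k ih =>
    refine (ih (by omega)).tail ⟨u, v, (adj u v).mpr h, by simp; omega, funext fun w => ?_⟩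
    beta_reduce
    split_ifs <;> omega

theorem sound (y : V) : ∀ l P, run l P y →
    ∃ Q, Relation.ReflTransGen (Move (pathGraph 5 □ pathGraph 6)) P Q ∧ 1 ≤ Q y
  | [], P, h => ⟨P, .refl, h⟩
  | (u, v, k) :: l, P, h => (sound y l _ h.2.2).imp fun _ q => ⟨(bulk u v h.1 P k h.2.1).trans q.1, q.2⟩

def P (w : V) : ℕ := if w = (0, 0) ∨ w = (4, 0) then 4 else if w = (0, 5) then 24
  else if w = (4, 5) then 7 else 0

def M : Fin 5 → Fin 6 → List (V × V × ℕ) := ![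
  ![[], [((0, 0), (0, 1), 1)], [((0, 0), (0, 1), 2), ((0, 1), (0, 2), 1)], [((0, 5), (0, 4), 2), ((0, 4), (0, 3), 1)], [((0, 5), (0, 4), 1)], []],
  ![[((0, 0), (1, 0), 1)], [((0, 0), (0, 1), 2), ((0, 1), (1, 1), 1)], [((0, 5), (0, 4), 8), ((0, 4), (0, 3), 4), ((0, 3), (0, 2), 2), ((0, 2), (1, 2), 1)], [((0, 5), (0, 4), 4), ((0, 4), (0, 3), 2), ((0, 3), (1, 3), 1)], [((0, 5), (0, 4), 2), ((0, 4), (1, 4), 1)], [((0, 5), (1, 5), 1)]],
  ![[((0, 0), (1, 0), 2), ((1, 0), (2, 0), 1)], [((0, 0), (1, 0), 2), ((1, 0), (2, 0), 1), ((4, 0), (3, 0), 2), ((3, 0), (2, 0), 1), ((2, 0), (2, 1), 1)], [((0, 0), (0, 1), 2), ((0, 1), (0, 2), 1), ((0, 5), (0, 4), 12), ((0, 4), (0, 3), 6), ((0, 3), (0, 2), 3), ((0, 2), (1, 2), 2), ((1, 2), (2, 2), 1)], [((0, 5), (0, 4), 8), ((0, 4), (0, 3), 4), ((0, 3), (1, 3), 2), ((1, 3), (2, 3), 1)], [((0, 5), (0, 4), 4), ((0, 4), (1, 4), 2), ((1, 4), (2, 4), 1)], [((0,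 5), (1, 5), 2), ((1, 5), (2, 5), 1)]],
  ![[((4, 0), (3, 0), 1)], [((4, 0), (4, 1), 2), ((4, 1), (3, 1), 1)], [((0, 5), (1, 5), 8), ((1, 5), (2, 5), 4), ((2, 5), (3, 5), 2), ((3, 5), (4, 5), 1), ((4, 5), (4, 4), 4), ((4, 4), (4, 3), 2), ((4, 3), (4, 2), 1), ((4, 0), (4, 1), 2), ((4, 1), (4, 2), 1), ((4, 2), (3, 2), 1)], [((0, 5), (1, 5), 8), ((1, 5), (2, 5), 4), ((2, 5), (3, 5), 2), ((3, 5), (4, 5), 1), ((4, 5), (4, 4), 4), ((4, 4), (4, 3), 2), ((4, 3), (3, 3), 1)], [((0, 5), (0, 4), 8), ((0, 4), (1, 4), 4), ((1, 4), (2, 4), 2), ((2, 4), (3, 4), 1)], [((0, 5), (1, 5), 4), ((1, 5), (2, 5), 2), ((2, 5), (3, 5), 1)]],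
  ![[], [((4, 0), (4, 1), 1)], [((4, 0), (4, 1), 2), ((4, 1), (4, 2), 1)], [((4, 5), (4, 4), 2), ((4, 4), (4, 3), 1)], [((4, 5), (4, 4), 1)], [((0, 5), (1, 5), 8), ((1, 5), (2, 5), 4), ((2, 5), (3, 5), 2), ((3, 5), (4, 5), 1)]]]

theorem result : ∃ (m n : ℕ) (P : Fin m × Fin n → ℕ) (X : Fin m × Fin n),
    (∀ y, ∃ Q, Relation.ReflTransGen (Move (pathGraph m □ pathGraph n)) P Q ∧ 1 ≤ Q y) ∧
    (0 < X.1.val ∧ X.1.val + 1 < m ∧ 0 < X.2.val ∧ X.2.val + 1 < n) ∧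
    ∑ y, (P y : ℝ) / 2 ^ (pathGraph m □ pathGraph n).dist X y < 3 / 2 := by
  refine ⟨5, 6, P, (2, 1), fun y => sound y (M y.1 y.2) P (by revert y; decide +kernel), by decide, ?_⟩
  have h := Pool.Agent.Lib.helper6.dist_eq_of_cert (pathGraph 5 □ pathGraph 6) d (by decide +kernel)
    (by simp only [adj]; decide +kernel) (by simp only [adj]; decide +kernel)
  have : ∑ y, (P y : ℚ) / 2 ^ d (2, 1) y < 3 / 2 := by decide +kernel
  simp only [fun v => (h (2, 1) v).2]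
  have := (Rat.cast_lt (K := ℝ)).mpr this
  push_cast at this
  exact this

end Pool.Agent.Results.MP_33b0ad_co.Grid
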